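import Pool.Agent.Lib.KV.SpecZ
import Pool.Agent.Lib.KV.B.SpecE

/-!
# KV (MP_64edc4_ag): the two forms of the output of part B
-/

set_option autoImplicit false

namespace KVB

theorem tAda (h : S_PB) : KV.S_PB := by
  intro N m k I U _ _ Γ _ _ h1 h2 h3 F Om hS hB
  exact h N m k F Om U hS hB Γ h1 h2 h3

end KVB
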