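import Pool.Agent.Lib.KV.B.SpecE

/-! # KV, part B, block E, module Bsd (helper24) -/

set_option autoImplicit false

open Set Filter Topology Metric

namespace KVB

open KP

namespace BsdAux

/-- A map with derivative `-1` at the fixed point `q` has no other fixed points near `q`. -/
theorem isolated {W : Type} [NormedAddCommGroup W] [NormedSpace ℂ W] {s : W → W} {q : W}
    (hs : HasFDerivAt s (-ContinuousLinearMap.id ℂ W) q) (hq : s q = q) :
    ∀ᶠ y in 𝓝 q, s y = y → y = q := by
  filter_upwards [hs.isLittleO.def (zero_lt_one' ℝ)] with y hy he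
  rw [he, hq, ContinuousLinearMap.neg_apply, ContinuousLinearMap.id_apply, sub_neg_eq_add,
    one_mul] at hy
  have h1 : y - q + (y - q) = (2 : ℂ) • (y - q) := (two_smul ℂ (y - q)).symm
  rw [h1, norm_smul, Complex.norm_ofNat] at hy
  have h2 : ‖y - q‖ ≤ 0 := by linarith [norm_nonneg (y - q)]
  exact sub_eq_zero.1 (norm_le_zero_iff.1 h2)

end BsdAux

theorem tBsd : S_Bsd := by
  intro V _ _ D hD hc hn n b b' R hb hbD hb' hbb hR hs
  have hmb' : MapsTo b' (b '' D) D := by
    rintro _ ⟨x, hx, rfl⟩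
    rw [hbb x hx]
    exact hx
  refine ⟨hbD, ⟨hn.image b, hc.image b hb.continuousOn⟩, ?_, ?_⟩
  · rw [isBounded_iff_forall_norm_le]
    refine ⟨R, ?_⟩
    rintro _ ⟨x, hx, rfl⟩
    exact hR x hx
  · rintro _ ⟨p, hp, rfl⟩
    obtain ⟨s, hs1, hs2, hs3, hs4, hs5⟩ := hs p hp
    have hq : b p ∈ b '' D := mem_image_of_mem b hp
    have hmap : MapsTo (fun y => b (s (b' y))) (b '' D) (b '' D) := fun y hy =>
      mem_image_of_mem b (hs2 (hmb' hy))
    have hfix : (fun y => b (s (b' y))) (b p) = b p := by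
      show b (s (b' (b p))) = b p
      rw [hbb p hp, hs4]
    -- the derivatives
    have d1 : HasFDerivAt b' (fderiv ℂ b' (b p)) (b p) :=
      ((hb' _ hq).differentiableAt (hbD.mem_nhds hq)).hasFDerivAt
    have d2 : HasFDerivAt s (-ContinuousLinearMap.id ℂ V) (b' (b p)) := by
      rw [hbb p hp, ← hs5]
      exact ((hs1 p hp).differentiableAt (hD.mem_nhds hp)).hasFDerivAt
    have d3 : HasFDerivAt b (fderiv ℂ b p) p :=
      ((hb p hp).differentiableAt (hD.mem_nhds hp)).hasFDerivAt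
    have d3' : HasFDerivAt b (fderiv ℂ b p) (b' (b p)) := by rw [hbb p hp]; exact d3
    have d3'' : HasFDerivAt b (fderiv ℂ b p) (s (b' (b p))) := by rw [hbb p hp, hs4]; exact d3
    have d4 : HasFDerivAt (fun y => b (b' y)) ((fderiv ℂ b p).comp (fderiv ℂ b' (b p))) (b p) :=
      d3'.comp (b p) d1
    have d5 : HasFDerivAt (fun y => b (b' y)) (ContinuousLinearMap.id ℂ (Cn n)) (b p) := by
      refine (hasFDerivAt_id (b p)).congr_of_eventuallyEq ?_
      filter_upwards [hbD.mem_nhds hq] with y hy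
      obtain ⟨x, hx, rfl⟩ := hy
      show b (b' (b x)) = b x
      rw [hbb x hx]
    have d6 : (fderiv ℂ b p).comp (fderiv ℂ b' (b p)) = ContinuousLinearMap.id ℂ (Cn n) :=
      d4.unique d5
    have d7 : HasFDerivAt (fun y => b (s (b' y)))
        ((fderiv ℂ b p).comp ((-ContinuousLinearMap.id ℂ V).comp (fderiv ℂ b' (b p)))) (b p) :=
      d3''.comp (b p) (d2.comp (b p) d1)
    have d8 : (fderiv ℂ b p).comp ((-ContinuousLinearMap.id ℂ V).comp (fderiv ℂ b' (b p))) =
        -ContinuousLinearMap.id ℂ (Cn n) := by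
      rw [← d6]
      ext1 w
      simp
    rw [d8] at d7
    refine ⟨fun y => b (s (b' y)), ?_, hmap, ?_, hfix, ?_⟩
    · rw [holOn_iff hbD]
      exact hb.comp (hs1.comp hb' hmb') (fun y hy => hs2 (hmb' hy))
    · rintro _ ⟨x, hx, rfl⟩
      show b (s (b' (b (s (b' (b x)))))) = b x
      rw [hbb x hx, hbb _ (hs2 hx), hs3 x hx]
    · have h1 := BsdAux.isolated d7 hfix
      exact ⟨{y | (fun y => b (s (b' y))) y = y → y = b p}, h1, fun x hx he => hx.1 he⟩

end KVB
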