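import Pool.Agent.Lib.KV.B.SpecE

/-!
# KV (MP_64edc4_ag), part B, block E, module Cay: a bounded realization of the Siegel domain
-/

set_option autoImplicit false

open Set Filter Topology Metric

namespace KVB

open KP

namespace CayAux

variable {m k : ℕ}

noncomputable def q (lam : Fin k → ℝ) (w : Cn k) : ℂ := dc lam w + Complex.I

noncomputable def b (lam : Fin k → ℝ) (A : Matrix (Fin k) (Fin k) ℂ) (p : Vs m k) :
    Cn (m + k) :=
  Fin.append ((q lam p.2)⁻¹ • p.1)
    (fun a => (A.mulVec p.2 a - Complex.I) / (A.mulVec p.2 a + Complex.I))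

noncomputable def wv (A' : Matrix (Fin k) (Fin k) ℂ) (p : Cn (m + k)) : Cn k :=
  A'.mulVec (fun a => Complex.I * (1 + p (Fin.natAdd m a)) / (1 - p (Fin.natAdd m a)))

noncomputable def b' (lam : Fin k → ℝ) (A' : Matrix (Fin k) (Fin k) ℂ) (p : Cn (m + k)) :
    Vs m k :=
  (q lam (wv A' p) • (fun i => p (Fin.castAdd k i)), wv A' p)

theorem dq (lam : Fin k → ℝ) : Differentiable ℂ (q lam) := by
  have h1 : Differentiable ℂ (fun w : Cn k => ∑ j, (lam j : ℂ) * w j) :=
    Differentiable.fun_sum fun j _ => (differentiable_apply j).const_mul _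
  exact h1.add_const _

theorem dmv (A : Matrix (Fin k) (Fin k) ℂ) (a : Fin k) :
    Differentiable ℂ (fun w : Cn k => A.mulVec w a) := by
  show Differentiable ℂ (fun w : Cn k => ∑ j, A a j * w j)
  exact Differentiable.fun_sum fun j _ => (differentiable_apply j).const_mul _

theorem db (lam : Fin k → ℝ) (A : Matrix (Fin k) (Fin k) ℂ) (D : Set (Vs m k))
    (h1 : ∀ p ∈ D, q lam p.2 ≠ 0) (h2 : ∀ p ∈ D, ∀ a, A.mulVec p.2 a + Complex.I ≠ 0) :
    DifferentiableOn ℂ (b lam A) D := by
  refine differentiableOn_pi.2 fun i => ?_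
  refine Fin.addCases (fun i => ?_) (fun a => ?_) i
  · simp only [b, Fin.append_left, Pi.smul_apply, smul_eq_mul]
    have e1 : DifferentiableOn ℂ (fun p : Vs m k => (q lam p.2)⁻¹) D :=
      ((dq lam).comp differentiable_snd).differentiableOn.inv h1
    have e2 : Differentiable ℂ (fun p : Vs m k => p.1 i) :=
      differentiable_pi.1 differentiable_fst i
    exact e1.mul e2.differentiableOn
  · simp only [b, Fin.append_right]
    have e1 : DifferentiableOn ℂ (fun p : Vs m k => A.mulVec p.2 a) D :=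
      ((dmv A a).comp differentiable_snd).differentiableOn
    have e2 : DifferentiableOn ℂ (fun p : Vs m k => (A.mulVec p.2 a + Complex.I)⁻¹) D :=
      (e1.add_const Complex.I).inv fun p hp => h2 p hp a
    have e3 : (fun p : Vs m k => (A.mulVec p.2 a - Complex.I) / (A.mulVec p.2 a + Complex.I)) =
        fun p : Vs m k => (A.mulVec p.2 a - Complex.I) * (A.mulVec p.2 a + Complex.I)⁻¹ := by
      funext p
      exact div_eq_mul_inv _ _
    rw [e3]
    exact (e1.sub_const Complex.I).mul e2

/-- The open set on which `b'` is holomorphic. -/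
def U (m k : ℕ) : Set (Cn (m + k)) := {p | ∀ a : Fin k, p (Fin.natAdd m a) ≠ 1}

theorem isOpen_U : IsOpen (U m k) := by
  have : U m k = ⋂ a : Fin k, {p : Cn (m + k) | p (Fin.natAdd m a) ≠ 1} := by
    ext p
    simp [U]
  rw [this]
  exact isOpen_iInter_of_finite fun a => isOpen_ne_fun (continuous_apply _) continuous_const

theorem db' (lam : Fin k → ℝ) (A' : Matrix (Fin k) (Fin k) ℂ) :
    DifferentiableOn ℂ (b' (m := m) lam A') (U m k) := by
  have e0 : ∀ a : Fin k, DifferentiableOn ℂ (fun p : Cn (m + k) =>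
      Complex.I * (1 + p (Fin.natAdd m a)) / (1 - p (Fin.natAdd m a))) (U m k) := by
    intro a
    have e1 : DifferentiableOn ℂ (fun p : Cn (m + k) => p (Fin.natAdd m a)) (U m k) :=
      (differentiable_apply _).differentiableOn
    have e2 : DifferentiableOn ℂ (fun p : Cn (m + k) => (1 - p (Fin.natAdd m a))⁻¹) (U m k) :=
      (e1.const_sub 1).inv fun p hp => sub_ne_zero.2 (hp a).symm
    have e3 : (fun p : Cn (m + k) => Complex.I * (1 + p (Fin.natAdd m a)) /
        (1 - p (Fin.natAdd m a))) = fun p : Cn (m + k) =>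
        (Complex.I * (1 + p (Fin.natAdd m a))) * (1 - p (Fin.natAdd m a))⁻¹ := by
      funext p
      exact div_eq_mul_inv _ _
    rw [e3]
    exact ((e1.const_add 1).const_mul Complex.I).mul e2
  have e1 : DifferentiableOn ℂ (wv (m := m) A') (U m k) := by
    refine differentiableOn_pi.2 fun j => ?_
    show DifferentiableOn ℂ (fun p : Cn (m + k) => ∑ a, A' j a *
      (Complex.I * (1 + p (Fin.natAdd m a)) / (1 - p (Fin.natAdd m a)))) (U m k)
    exact DifferentiableOn.fun_sum fun a _ => (e0 a).const_mul _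
  have e2 : DifferentiableOn ℂ (fun p : Cn (m + k) => q lam (wv A' p)) (U m k) :=
    (dq lam).comp_differentiableOn e1
  have e3 : DifferentiableOn ℂ (fun p : Cn (m + k) => ((fun i => p (Fin.castAdd k i)) : Cn m))
      (U m k) := (differentiable_pi.2 fun i => differentiable_apply _).differentiableOn
  exact (e2.smul e3).prodMk e1

theorem cay1 {τ : ℂ} (h : τ + Complex.I ≠ 0) :
    Complex.I * (1 + (τ - Complex.I) / (τ + Complex.I)) /
      (1 - (τ - Complex.I) / (τ + Complex.I)) = τ := by
  have h1 : 1 - (τ - Complex.I) / (τ + Complex.I) = 2 * Complex.I / (τ + Complex.I) := by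
    field_simp
    ring
  have h2 : 1 + (τ - Complex.I) / (τ + Complex.I) = 2 * τ / (τ + Complex.I) := by
    field_simp
    ring
  rw [h1, h2]
  have h3 : Complex.I ≠ 0 := Complex.I_ne_zero
  field_simp

theorem cay2 {u : ℂ} (h : u ≠ 1) :
    (Complex.I * (1 + u) / (1 - u) - Complex.I) / (Complex.I * (1 + u) / (1 - u) + Complex.I) =
      u := by
  have h0 : (1 : ℂ) - u ≠ 0 := sub_ne_zero.2 h.symm
  have h1 : Complex.I * (1 + u) / (1 - u) - Complex.I = 2 * Complex.I * u / (1 - u) := by
    field_simp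
    ring
  have h2 : Complex.I * (1 + u) / (1 - u) + Complex.I = 2 * Complex.I / (1 - u) := by
    field_simp
    ring
  rw [h1, h2]
  have h3 : Complex.I ≠ 0 := Complex.I_ne_zero
  field_simp

theorem cay3 {τ : ℂ} (h : 0 < τ.im) : ‖(τ - Complex.I) / (τ + Complex.I)‖ ≤ 1 := by
  rw [norm_div]
  refine div_le_one_of_le₀ ?_ (norm_nonneg _)
  have h1 : Complex.normSq (τ - Complex.I) ≤ Complex.normSq (τ + Complex.I) := by
    rw [Complex.normSq_apply, Complex.normSq_apply]
    simp only [Complex.sub_re, Complex.sub_im, Complex.add_re, Complex.add_im, Complex.I_re,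
      Complex.I_im]
    nlinarith
  rw [Complex.normSq_eq_norm_sq, Complex.normSq_eq_norm_sq] at h1
  exact (sq_le_sq₀ (norm_nonneg _) (norm_nonneg _)).1 h1

theorem dc_im (l : Fin k → ℝ) (w : Cn k) : (dc l w).im = dt l (imv w) := by
  unfold dc dt imv
  rw [Complex.im_sum]
  exact Finset.sum_congr rfl fun j _ => by rw [Complex.im_ofReal_mul]

theorem cont_hf (F : Fin k → Matrix (Fin m) (Fin m) ℂ) :
    Continuous (fun z : Cn m => rev (hf F z z)) := by
  refine continuous_pi fun j => ?_
  show Continuous (fun z : Cn m => (∑ a, ∑ b, F j a b * z a * (starRingEnd ℂ) (z b)).re)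
  refine Complex.continuous_re.comp ?_
  refine continuous_finsetSum _ fun a _ => continuous_finsetSum _ fun b _ => ?_
  exact (continuous_const.mul (continuous_apply a)).mul
    (Complex.continuous_conj.comp (continuous_apply b))

theorem cont_imv : Continuous (imv : Cn k → Fin k → ℝ) :=
  continuous_pi fun j => Complex.continuous_im.comp (continuous_apply j)

theorem cont_cx : Continuous (cx : (Fin k → ℝ) → Cn k) :=
  continuous_pi fun j => Complex.continuous_ofReal.comp (continuous_apply j)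

theorem hf_rs (F : Fin k → Matrix (Fin m) (Fin m) ℂ) (t : ℝ) (z : Cn m) :
    rev (hf F ((t : ℂ) • z) ((t : ℂ) • z)) = t ^ 2 • rev (hf F z z) := by
  rw [hf_smul_left, hf_smul_right, smul_smul, Complex.conj_ofReal]
  ext j
  simp only [rev, Pi.smul_apply, smul_eq_mul]
  rw [← Complex.ofReal_mul, Complex.re_ofReal_mul]
  ring

theorem low (F : Fin k → Matrix (Fin m) (Fin m) ℂ) (Om : Set (Fin k → ℝ)) (hF : Sie F Om) :
    ∃ c > 0, ∀ z : Cn m, c * ‖z‖ ^ 2 ≤ ‖rev (hf F z z)‖ := by
  have hpos : ∀ z : Cn m, z ≠ 0 → 0 < ‖rev (hf F z z)‖ := by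
    intro z hz
    rw [norm_pos_iff]
    intro h
    apply hz
    apply hF.pd
    rw [← hf_self hF z, h]
    ext j
    simp [cx]
  have hsph : ∀ z : Cn m, z ≠ 0 → (((‖z‖⁻¹ : ℝ) : ℂ) • z) ∈ sphere (0 : Cn m) 1 := by
    intro z hz
    rw [mem_sphere_zero_iff_norm, norm_smul, Complex.norm_real, norm_inv, norm_norm]
    exact inv_mul_cancel₀ (norm_ne_zero_iff.2 hz)
  rcases (sphere (0 : Cn m) 1).eq_empty_or_nonempty with h | h
  · refine ⟨1, one_pos, fun z => ?_⟩
    by_cases hz : z = 0
    · rw [hz, norm_zero]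
      simp
    · exact absurd (hsph z hz) (by rw [h]; exact fun h => h)
  · obtain ⟨z1, hz1, hmin⟩ := (isCompact_sphere (0 : Cn m) 1).exists_isMinOn h
      (cont_hf F).norm.continuousOn
    have hz1' : z1 ≠ 0 := by
      intro h0
      rw [h0, mem_sphere_zero_iff_norm, norm_zero] at hz1
      exact zero_ne_one hz1
    refine ⟨‖rev (hf F z1 z1)‖, hpos z1 hz1', fun z => ?_⟩
    by_cases hz : z = 0
    · rw [hz, norm_zero]
      simp
    · have h1 : ‖rev (hf F z1 z1)‖ ≤
          ‖rev (hf F ((((‖z‖⁻¹ : ℝ)) : ℂ) • z) ((((‖z‖⁻¹ : ℝ)) : ℂ) • z))‖ := hmin (hsph z hz)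
      rw [hf_rs, norm_smul, Real.norm_eq_abs, abs_of_nonneg (by positivity)] at h1
      have hn : 0 < ‖z‖ := norm_pos_iff.2 hz
      calc ‖rev (hf F z1 z1)‖ * ‖z‖ ^ 2 ≤ (‖z‖⁻¹ ^ 2 * ‖rev (hf F z z)‖) * ‖z‖ ^ 2 :=
            mul_le_mul_of_nonneg_right h1 (by positivity)
        _ = ‖rev (hf F z z)‖ := by field_simp

theorem basis (Om : Set (Fin k → ℝ))
    (h : ∀ y : Fin k → ℝ, (∀ l ∈ Lam Om, dt l y = 0) → y = 0) :
    ∃ A A' : Matrix (Fin k) (Fin k) ℝ, A * A' = 1 ∧ A' * A = 1 ∧ ∀ a, A a ∈ Lam Om := by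
  have hs : ⊤ ≤ Submodule.span ℝ (Lam Om) := by
    by_contra hne
    have hlt : Submodule.span ℝ (Lam Om) < ⊤ := lt_top_iff_ne_top.2 fun h0 => hne h0.ge
    obtain ⟨f, hf, hf'⟩ := Submodule.exists_dual_map_eq_bot_of_lt_top hlt inferInstance
    apply hf
    set y : Fin k → ℝ := fun j => f (Pi.single j 1) with hy
    have hfy : ∀ l : Fin k → ℝ, f l = dt l y := by
      intro l
      conv_lhs => rw [pi_eq_sum_univ' l]
      rw [map_sum]
      refine Finset.sum_congr rfl fun j _ => ?_
      rw [map_smul, smul_eq_mul]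
    have hy0 : y = 0 := by
      apply h
      intro l hl
      rw [← hfy]
      have h1 : f l ∈ (Submodule.span ℝ (Lam Om)).map f := ⟨l, Submodule.subset_span hl, rfl⟩
      rw [hf'] at h1
      exact h1
    ext l
    simp [hfy, hy0, dt]
  set B := Module.Basis.ofSpan hs with hB
  have hBs : ∀ i, B i ∈ Lam Om := fun i => Module.Basis.ofSpan_subset hs ⟨i, rfl⟩
  set e := B.indexEquiv (Pi.basisFun ℝ (Fin k)) with he
  set A : Matrix (Fin k) (Fin k) ℝ := fun a => B (e.symm a) with hA
  have hli : LinearIndependent ℝ (fun a => A a) := by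
    have := B.linearIndependent.comp e.symm e.symm.injective
    exact this
  have hu : IsUnit A := Matrix.linearIndependent_rows_iff_isUnit.1 hli
  obtain ⟨u, hu⟩ := hu
  refine ⟨A, (u⁻¹ : (Matrix (Fin k) (Fin k) ℝ)ˣ), ?_, ?_, fun a => hBs _⟩
  · rw [← hu]
    exact u.mul_inv
  · rw [← hu]
    exact u.inv_mul

end CayAux

open CayAux

theorem tCay (h1 : S_LamP) : S_Cay := by
  intro m k F Om hF
  obtain ⟨l1, l2, l3, l4, _, ⟨lam, c, hc, l6⟩, _⟩ := h1 m k F Om hF
  obtain ⟨e, he⟩ := hF.nem
  -- the imaginary part of the second component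
  have himv : ∀ p ∈ SD F Om, imv p.2 ∈ Om := by
    intro p hp
    have h2 := l3 _ (hF.psd p.1) _ hp
    rwa [add_sub_cancel] at h2
  have hopen : IsOpen (SD F Om) := by
    have h2 : Continuous (fun p : Vs m k => imv p.2 - rev (hf F p.1 p.1)) :=
      (cont_imv.comp continuous_snd).sub ((cont_hf F).comp continuous_fst)
    exact hF.opn.preimage h2
  have hval : ∀ (z : Cn m) (u y : Fin k → ℝ),
      imv (cx u + Complex.I • cx (y + rev (hf F z z))) - rev (hf F z z) = y := by
    intro z u y
    ext j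
    simp [imv, cx, rev]
  have hconn : IsPreconnected (SD F Om) := by
    set T : (Fin k → ℝ) × Cn m × (Fin k → ℝ) → Vs m k :=
      fun q => (q.2.1, cx q.2.2 + Complex.I • cx (q.1 + rev (hf F q.2.1 q.2.1))) with hT
    have hTc : Continuous T := by
      have c1 : Continuous (fun q : (Fin k → ℝ) × Cn m × (Fin k → ℝ) =>
          cx q.2.2 + Complex.I • cx (q.1 + rev (hf F q.2.1 q.2.1))) :=
        (cont_cx.comp (continuous_snd.comp continuous_snd)).add
          ((cont_cx.comp (continuous_fst.add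
            ((cont_hf F).comp (continuous_fst.comp continuous_snd)))).const_smul Complex.I)
      exact (continuous_fst.comp continuous_snd).prodMk c1
    have h2 : IsPreconnected (T '' (Om ×ˢ (univ ×ˢ univ))) :=
      (hF.cvx.isPreconnected.prod (isPreconnected_univ.prod isPreconnected_univ)).image _
        hTc.continuousOn
    have h3 : T '' (Om ×ˢ (univ ×ˢ univ)) = SD F Om := by
      apply Subset.antisymm
      · rintro _ ⟨⟨y, z, u⟩, hq, rfl⟩
        show imv (cx u + Complex.I • cx (y + rev (hf F z z))) - rev (hf F z z) ∈ Om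
        rw [hval]
        exact hq.1
      · intro p hp
        refine ⟨(imv p.2 - rev (hf F p.1 p.1), p.1, rev p.2), ⟨hp, trivial, trivial⟩, ?_⟩
        refine Prod.ext rfl ?_
        show cx (rev p.2) + Complex.I • cx (imv p.2 - rev (hf F p.1 p.1) +
          rev (hf F p.1 p.1)) = p.2
        rw [sub_add_cancel]
        ext j
        simp only [Pi.add_apply, Pi.smul_apply, smul_eq_mul, cx, rev, imv]
        rw [mul_comm]
        exact Complex.re_add_im _
    rwa [h3] at h2
  have hne : (SD F Om).Nonempty := by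
    refine ⟨(0, Complex.I • cx e), ?_⟩
    show imv (Complex.I • cx e) - rev (hf F 0 0) ∈ Om
    have e1 : imv (Complex.I • cx e) - rev (hf F (0 : Cn m) 0) = e := by
      ext j
      simp [imv, rev, cx, hf]
    rw [e1]
    exact he
  refine ⟨hopen, hconn, hne, ?_⟩
  obtain ⟨A, A', hAA, hAA', hAl⟩ := basis Om l4
  set Ac : Matrix (Fin k) (Fin k) ℂ := A.map Complex.ofRealHom with hAc
  set Ac' : Matrix (Fin k) (Fin k) ℂ := A'.map Complex.ofRealHom with hAc'
  have hc1 : Ac * Ac' = 1 := by
    rw [hAc, hAc', ← Matrix.map_mul, hAA, Matrix.map_one _ (map_zero _) (map_one _)]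
  have hc2 : Ac' * Ac = 1 := by
    rw [hAc, hAc', ← Matrix.map_mul, hAA', Matrix.map_one _ (map_zero _) (map_one _)]
  have hTim : ∀ p ∈ SD F Om, ∀ a, 0 < (Ac.mulVec p.2 a).im := by
    intro p hp a
    have h2 : Ac.mulVec p.2 a = dc (A a) p.2 := rfl
    rw [h2, dc_im]
    exact l1 _ (hAl a) _ (himv p hp)
  have hTne : ∀ p ∈ SD F Om, ∀ a, Ac.mulVec p.2 a + Complex.I ≠ 0 := by
    intro p hp a h0
    have h2 := congrArg Complex.im h0
    rw [Complex.add_im, Complex.I_im, Complex.zero_im] at h2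
    have := hTim p hp a
    linarith
  have hY : ∀ p ∈ SD F Om, 0 ≤ dt lam (imv p.2) := by
    intro p hp
    exact le_trans (by positivity) (l6 _ (subset_closure (himv p hp)))
  have hqim : ∀ p : Vs m k, (CayAux.q lam p.2).im = dt lam (imv p.2) + 1 := by
    intro p
    unfold CayAux.q
    rw [Complex.add_im, Complex.I_im, dc_im]
  have hqn : ∀ p ∈ SD F Om, dt lam (imv p.2) + 1 ≤ ‖CayAux.q lam p.2‖ := by
    intro p hp
    rw [← hqim p]
    exact (le_abs_self _).trans (Complex.abs_im_le_norm _)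
  have hqne : ∀ p ∈ SD F Om, CayAux.q lam p.2 ≠ 0 := by
    intro p hp h0
    have h2 := hqn p hp
    rw [h0, norm_zero] at h2
    have := hY p hp
    linarith
  have hbb : ∀ p ∈ SD F Om, CayAux.b' lam Ac' (CayAux.b lam Ac p) = p := by
    intro p hp
    have h2 : CayAux.wv Ac' (CayAux.b lam Ac p) = p.2 := by
      unfold CayAux.wv CayAux.b
      simp only [Fin.append_right]
      have h3 : (fun a => Complex.I * (1 + (Ac.mulVec p.2 a - Complex.I) /
          (Ac.mulVec p.2 a + Complex.I)) / (1 - (Ac.mulVec p.2 a - Complex.I) /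
          (Ac.mulVec p.2 a + Complex.I))) = Ac.mulVec p.2 := by
        funext a
        exact cay1 (hTne p hp a)
      rw [h3, Matrix.mulVec_mulVec, hc2, Matrix.one_mulVec]
    refine Prod.ext ?_ h2
    show CayAux.q lam (CayAux.wv Ac' (CayAux.b lam Ac p)) •
      (fun i => CayAux.b lam Ac p (Fin.castAdd k i)) = p.1
    rw [h2]
    ext i
    simp only [CayAux.b, Fin.append_left, Pi.smul_apply, smul_eq_mul]
    rw [mul_inv_cancel_left₀ (hqne p hp)]
  have himg : CayAux.b lam Ac '' SD F Om = U m k ∩ CayAux.b' lam Ac' ⁻¹' SD F Om := by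
    apply Subset.antisymm
    · rintro _ ⟨p, hp, rfl⟩
      refine ⟨?_, ?_⟩
      · intro a h0
        simp only [CayAux.b, Fin.append_right] at h0
        rw [div_eq_one_iff_eq (hTne p hp a)] at h0
        have h2 := congrArg Complex.im h0
        rw [Complex.sub_im, Complex.add_im, Complex.I_im] at h2
        linarith
      · show CayAux.b' lam Ac' (CayAux.b lam Ac p) ∈ SD F Om
        rw [hbb p hp]
        exact hp
    · rintro p ⟨hpU, hpD⟩
      have hpD' : CayAux.b' lam Ac' p ∈ SD F Om := hpD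
      refine ⟨CayAux.b' lam Ac' p, hpD', ?_⟩
      have h2 : Ac.mulVec (CayAux.b' lam Ac' p).2 = fun a =>
          Complex.I * (1 + p (Fin.natAdd m a)) / (1 - p (Fin.natAdd m a)) := by
        show Ac.mulVec (Ac'.mulVec _) = _
        rw [Matrix.mulVec_mulVec, hc1, Matrix.one_mulVec]
      ext i
      refine Fin.addCases (fun i => ?_) (fun a => ?_) i
      · simp only [CayAux.b, Fin.append_left]
        have h3 := hqne _ hpD'
        show ((CayAux.q lam (CayAux.b' lam Ac' p).2)⁻¹ •
          (CayAux.q lam (CayAux.b' lam Ac' p).2 • fun i => p (Fin.castAdd k i))) i = _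
        rw [smul_smul, inv_mul_cancel₀ h3, one_smul]
      · simp only [CayAux.b, Fin.append_right, h2]
        exact cay2 (hpU a)
  have hdb' := db' (m := m) lam Ac'
  obtain ⟨c', hc', hlow⟩ := low F Om hF
  refine ⟨CayAux.b lam Ac, CayAux.b' lam Ac', 1 + (1 + 1 / (c * c')), db lam Ac _ hqne hTne,
    ?_, ?_, hbb, ?_⟩
  · rw [himg]
    exact hdb'.continuousOn.isOpen_inter_preimage isOpen_U hopen
  · rw [himg]
    exact hdb'.mono inter_subset_left
  · intro p hp
    have hR : (0 : ℝ) < 1 + 1 / (c * c') := by positivity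
    refine (pi_norm_le_iff_of_nonneg (by positivity)).2 fun i => ?_
    refine Fin.addCases (fun i => ?_) (fun a => ?_) i
    · simp only [CayAux.b, Fin.append_left, Pi.smul_apply, smul_eq_mul]
      rw [norm_mul, norm_inv]
      have hq := hqn p hp
      have hy := hY p hp
      set Y := dt lam (imv p.2) with hYdef
      have h2 : ‖p.1 i‖ ≤ ‖p.1‖ := norm_le_pi_norm _ _
      have h3 : c * (c' * ‖p.1‖ ^ 2) ≤ Y := by
        have a1 := mul_le_mul_of_nonneg_left (hlow p.1) hc.le
        have a2 := l6 _ (hF.psd p.1)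
        have a3 : dt lam (imv p.2) = dt lam (rev (hf F p.1 p.1)) +
            dt lam (imv p.2 - rev (hf F p.1 p.1)) := by
          unfold dt
          rw [← Finset.sum_add_distrib]
          refine Finset.sum_congr rfl fun j _ => ?_
          simp only [Pi.sub_apply]
          ring
        have a4 : 0 ≤ dt lam (imv p.2 - rev (hf F p.1 p.1)) :=
          le_trans (by positivity) (l6 _ (subset_closure hp))
        rw [hYdef, a3]
        linarith
      have h4 : ‖p.1‖ ≤ (1 + 1 / (c * c')) * (Y + 1) := by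
        have b1 : ‖p.1‖ ≤ 1 + ‖p.1‖ ^ 2 := by nlinarith [sq_nonneg (‖p.1‖ - 1)]
        have b2 : ‖p.1‖ ^ 2 ≤ 1 / (c * c') * Y := by
          rw [one_div, ← div_eq_inv_mul, le_div_iff₀ (by positivity)]
          calc ‖p.1‖ ^ 2 * (c * c') = c * (c' * ‖p.1‖ ^ 2) := by ring
            _ ≤ Y := h3
        have b3 : 0 ≤ 1 / (c * c') := by positivity
        nlinarith
      have h5 : 0 < ‖CayAux.q lam p.2‖ := by linarith
      calc ‖CayAux.q lam p.2‖⁻¹ * ‖p.1 i‖ ≤ ‖CayAux.q lam p.2‖⁻¹ *
            ((1 + 1 / (c * c')) * ‖CayAux.q lam p.2‖) := by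
            refine mul_le_mul_of_nonneg_left ?_ (by positivity)
            exact h2.trans (h4.trans (mul_le_mul_of_nonneg_left hq hR.le))
        _ = 1 + 1 / (c * c') := by field_simp
        _ ≤ 1 + (1 + 1 / (c * c')) := by linarith
    · simp only [CayAux.b, Fin.append_right]
      refine (cay3 (hTim p hp a)).trans ?_
      linarith

end KVB
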