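import Pool.Agent.Lib.KV.B.SpecE

/-!
# KV (MP_64edc4_ag), part B, block E, module HypS: the soft hypotheses for Siegel domains
-/

set_option autoImplicit false

open Set Filter Topology Metric

namespace KVB

open KP

theorem tHypS (h1 : S_Cay) (h2 : S_HypB) : S_HypS := by
  intro m k F Om hF Γ _ ρ hρ
  obtain ⟨ho, hc, hn, b, b', R, hb, hbo, hb', hbb, hR⟩ := h1 m k F Om hF
  exact h2 (Vs m k) (SD F Om) ho hc hn (m + k) b b' R hb hbo hb' hbb hR Γ ρ hρ

end KVB
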