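import Pool.Agent.Lib.KV.B.SpecE

/-! # KV, part B, block E, module PB (helper24) -/

set_option autoImplicit false

open Set Filter Topology Metric

namespace KVB

open KP

namespace PBAux

variable {m k : ℕ}

theorem toV_ofV (p : Vs m k) : toV (ofV p) = p := by
  refine Prod.ext ?_ ?_
  · funext i
    simp [toV, ofV, Fin.append_left]
  · funext j
    simp [toV, ofV, Fin.append_right]

theorem ofV_toV (p : Cn (m + k)) : ofV (toV p) = p := by
  funext i
  refine Fin.addCases (fun a => ?_) (fun b => ?_) i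
  · simp [toV, ofV, Fin.append_left]
  · simp [toV, ofV, Fin.append_right]

theorem diff_toV : Differentiable ℂ (toV : Cn (m + k) → Vs m k) := by
  refine Differentiable.prodMk ?_ ?_
  · rw [differentiable_pi]
    intro i
    exact differentiable_apply _
  · rw [differentiable_pi]
    intro j
    exact differentiable_apply _

theorem diff_ofV : Differentiable ℂ (ofV : Vs m k → Cn (m + k)) := by
  rw [differentiable_pi]
  intro i
  refine Fin.addCases (fun a => ?_) (fun b => ?_) i
  · have h1 : (fun p : Vs m k => ofV p (Fin.castAdd k a)) = fun p => p.1 a := by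
      funext p
      simp [ofV, Fin.append_left]
    rw [h1]
    fun_prop
  · have h1 : (fun p : Vs m k => ofV p (Fin.natAdd m b)) = fun p => p.2 b := by
      funext p
      simp [ofV, Fin.append_right]
    rw [h1]
    fun_prop

end PBAux

open PBAux in
theorem tPB (h1 : S_TrA) (h2 : S_HypS) (h3 : S_E2) (h4 : S_SymD) (h5 : S_Cay) (h6 : S_Bsd) :
    S_PB := by
  intro N m k F Om U hS hbi Γ _ _ hhol hpd hcpt
  obtain ⟨ρ, hρ⟩ := h1 N m k F Om U hS hbi Γ hhol hpd hcpt
  have hHyp := h2 m k F Om hS Γ ρ hρ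
  have hsym := h4 m k F Om hS hHyp (fun e he => h3 m k F Om hS hHyp Γ ρ hρ e he)
  obtain ⟨hopn, hcon, hnem, b, b', R, hb, hbD, hb', hbb, hR⟩ := h5 m k F Om hS
  refine ⟨b '' SD F Om, h6 (Vs m k) (SD F Om) hopn hcon hnem (m + k) b b' R hb hbD hb' hbb hR hsym,
    ?_⟩
  obtain ⟨f, g, hf, hg, mf, mg, gf, fg⟩ := hbi
  have hopn' : IsOpen (SDn F Om) := by
    have h7 : SDn F Om = toV ⁻¹' (SD F Om) := rfl
    rw [h7]
    exact hopn.preimage diff_toV.continuous
  have hmb' : MapsTo b' (b '' SD F Om) (SD F Om) := by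
    rintro _ ⟨x, hx, rfl⟩
    rw [hbb x hx]
    exact hx
  have m1 : MapsTo (fun p : Cn (m + k) => b (toV p)) (SDn F Om) (b '' SD F Om) := fun p hp =>
    mem_image_of_mem b hp
  have m2 : MapsTo (fun y => ofV (b' y)) (b '' SD F Om) (SDn F Om) := fun y hy => by
    show toV (ofV (b' y)) ∈ SD F Om
    rw [toV_ofV]
    exact hmb' hy
  have c1 : HolOn (fun p : Cn (m + k) => b (toV p)) (SDn F Om) := by
    rw [holOn_iff hopn']
    exact hb.comp diff_toV.differentiableOn (fun p hp => hp)
  have c2 : HolOn (fun y => ofV (b' y)) (b '' SD F Om) := by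
    rw [holOn_iff hbD]
    exact (diff_ofV.differentiableOn (s := univ)).comp hb' (fun _ _ => mem_univ _)
  refine ⟨fun x => b (toV (f x)), fun y => g (ofV (b' y)), c1.comp hf mf, hg.comp c2 m2,
    fun x hx => m1 (mf hx), fun y hy => mg (m2 hy), ?_, ?_⟩
  · intro x hx
    show g (ofV (b' (b (toV (f x))))) = x
    have h9 : b' (b (toV (f x))) = toV (f x) := hbb _ (mf hx)
    rw [h9, ofV_toV, gf x hx]
  · rintro _ ⟨v, hv, rfl⟩
    show b (toV (f (g (ofV (b' (b v)))))) = b v
    have h8 : ofV v ∈ SDn F Om := by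
      show toV (ofV v) ∈ SD F Om
      rw [toV_ofV]
      exact hv
    rw [hbb v hv, fg _ h8, toV_ofV]

end KVB
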