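import Pool.Agent.Lib.KV.B.SpecE

/-!
# KV (MP_64edc4_ag), part B, block E, module Sym0: the symmetry at the point `(0, i e)`
-/

set_option autoImplicit false

open Set Filter Topology Metric

namespace KVB

open KP

private theorem sym0_eig {V : Type} [NormedAddCommGroup V] [NormedSpace ℂ V] [CompleteSpace V]
    (A : V →L[ℂ] V) (v : V) (c : ℂ) (h : A v = c • v) :
    NormedSpace.exp A v = Complex.exp c • v := by
  have h1 : HasSum (fun n : ℕ => ((n.factorial : ℂ)⁻¹) • A ^ n) (NormedSpace.exp A) :=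
    NormedSpace.exp_series_hasSum_exp' (𝕂 := ℂ) A
  have h2 : HasSum (fun n : ℕ => (((n.factorial : ℂ)⁻¹) • A ^ n) v) (NormedSpace.exp A v) :=
    h1.mapL (ContinuousLinearMap.apply ℂ V v)
  have h3 : ∀ n : ℕ, (A ^ n) v = c ^ n • v := by
    intro n
    induction n with
    | zero => simp
    | succ n ih =>
      rw [pow_succ', ContinuousLinearMap.mul_apply, ih, map_smul, h, smul_smul, pow_succ]
  have h4 : HasSum (fun n : ℕ => ((n.factorial : ℂ)⁻¹) • c ^ n) (NormedSpace.exp c) :=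
    NormedSpace.exp_series_hasSum_exp' (𝕂 := ℂ) c
  have h5 : HasSum (fun n : ℕ => (((n.factorial : ℂ)⁻¹) • c ^ n) • v) (NormedSpace.exp c • v) :=
    h4.smul_const v
  have h6 : (fun n : ℕ => (((n.factorial : ℂ)⁻¹) • A ^ n) v) =
      fun n : ℕ => (((n.factorial : ℂ)⁻¹) • c ^ n) • v := by
    funext n
    rw [ContinuousLinearMap.smul_apply, h3 n, smul_assoc]
  rw [h6] at h2
  rw [h2.unique h5, Complex.exp_eq_exp_ℂ]

/-- The Euler field. -/
private noncomputable def sym0EE (m k : ℕ) : Vs m k →L[ℂ] Vs m k :=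
  (ContinuousLinearMap.fst ℂ (Cn m) (Cn k)).prod
    ((2 : ℂ) • ContinuousLinearMap.snd ℂ (Cn m) (Cn k))

private theorem sym0_exp {m k : ℕ} (c : ℂ) (v : Vs m k) :
    NormedSpace.exp (c • sym0EE m k) v = (Complex.exp c • v.1, Complex.exp (2 * c) • v.2) := by
  have h1 : NormedSpace.exp (c • sym0EE m k) ((v.1, 0) : Vs m k) =
      Complex.exp c • ((v.1, 0) : Vs m k) := by
    apply sym0_eig
    refine Prod.ext ?_ ?_
    · simp [sym0EE]
    · simp [sym0EE]
  have h2 : NormedSpace.exp (c • sym0EE m k) ((0, v.2) : Vs m k) =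
      Complex.exp (2 * c) • ((0, v.2) : Vs m k) := by
    apply sym0_eig
    refine Prod.ext ?_ ?_
    · simp [sym0EE]
    · simp [sym0EE, smul_smul, mul_comm]
  have h3 : v = ((v.1, 0) : Vs m k) + ((0, v.2) : Vs m k) := by
    refine Prod.ext ?_ ?_ <;> simp
  have h4 : NormedSpace.exp (c • sym0EE m k) v =
      NormedSpace.exp (c • sym0EE m k) ((v.1, 0) : Vs m k) +
        NormedSpace.exp (c • sym0EE m k) ((0, v.2) : Vs m k) := by
    rw [← map_add, ← h3]
  rw [h4, h1, h2]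
  refine Prod.ext ?_ ?_ <;> simp

private theorem sym0_bdd {m k : ℕ} (t : ℝ) :
    ‖NormedSpace.exp (((-(t * Complex.I)) : ℂ) • sym0EE m k)‖ ≤ 1 := by
  refine ContinuousLinearMap.opNorm_le_bound _ zero_le_one fun v => ?_
  rw [sym0_exp, Prod.norm_def, one_mul]
  have h1 : ‖Complex.exp (-(t * Complex.I))‖ = 1 := by
    have := Complex.norm_exp_ofReal_mul_I (-t)
    rwa [Complex.ofReal_neg, neg_mul] at this
  have h2 : ‖Complex.exp (2 * -(t * Complex.I))‖ = 1 := by
    have := Complex.norm_exp_ofReal_mul_I (-(2 * t))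
    rwa [Complex.ofReal_neg, Complex.ofReal_mul, show -(((2 : ℝ) : ℂ) * (t : ℂ)) * Complex.I =
      2 * -(t * Complex.I) by push_cast; ring] at this
  show max ‖Complex.exp (-(t * Complex.I)) • v.1‖ ‖Complex.exp (2 * -(t * Complex.I)) • v.2‖ ≤ ‖v‖
  rw [norm_smul, norm_smul, h1, h2, one_mul, one_mul]
  exact le_of_eq (Prod.norm_def v).symm

private theorem sym0_norm {V : Type} [NormedAddCommGroup V] [NormedSpace ℂ V] [CompleteSpace V]
    (L E : V →L[ℂ] V) (h : L * E = E * L) (t M : ℝ)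
    (h1 : ‖NormedSpace.exp ((t : ℂ) • (Complex.I • L))‖ ≤ M)
    (h2 : ‖NormedSpace.exp ((-(t * Complex.I) : ℂ) • E)‖ ≤ 1) :
    ‖NormedSpace.exp ((t : ℂ) • (Complex.I • (L - E)))‖ ≤ M := by
  have c0 : Commute L E := h
  have c1 : Commute ((t : ℂ) • (Complex.I • L)) ((-(t * Complex.I) : ℂ) • E) :=
    ((c0.smul_left Complex.I).smul_left _).smul_right _
  have c2 : (t : ℂ) • (Complex.I • (L - E)) =
      (t : ℂ) • (Complex.I • L) + (-(t * Complex.I) : ℂ) • E := by
    rw [smul_sub, smul_sub, sub_eq_add_neg, neg_smul, smul_smul (t : ℂ) Complex.I E]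
  let _ : NormedAlgebra ℚ (V →L[ℂ] V) := NormedAlgebra.restrictScalars ℚ ℂ (V →L[ℂ] V)
  rw [c2, NormedSpace.exp_add_of_commute c1]
  refine (norm_mul_le _ _).trans ?_
  calc _ ≤ ‖NormedSpace.exp ((t : ℂ) • (Complex.I • L))‖ * 1 :=
        mul_le_mul_of_nonneg_left h2 (norm_nonneg _)
    _ ≤ M := by rw [mul_one]; exact h1

theorem tSym0 (h1 : S_Hei) (h2 : S_AdC) (h3 : S_Lin) (h4 : S_Iso) (h5 : S_LA1)
    (h6 : S_CUm) : S_Sym0 := by
  intro m k F Om hF hD e he M1 b2 hsym hX hbe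
  set D : Set (Vs m k) := SD F Om with hDdef
  obtain ⟨g1, g2, g3, g4, g5, _⟩ := h1 m k F Om hF
  have hfz : ∀ z : Cn m, hf F z 0 = 0 := by
    intro z
    ext j
    simp [hf]
  set p : Vs m k := (0, Complex.I • cx e) with hp
  have hpD : p ∈ D := by
    show imv (Complex.I • cx e) - rev (hf F 0 0) ∈ Om
    have e1 : imv (Complex.I • cx e) - rev (hf F 0 0) = e := by
      ext j
      simp [imv, rev, cx, hf]
    rw [e1]
    exact he
  -- continuous bilinear maps
  set M1c : Cn k →L[ℂ] Cn m →L[ℂ] Cn m := LinearMap.toContinuousLinearMap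
    ((LinearMap.toContinuousLinearMap : (Cn m →ₗ[ℂ] Cn m) ≃ₗ[ℂ] _).toLinearMap ∘ₗ M1) with hM1c
  set b2c : Cn k →L[ℂ] Cn k →L[ℂ] Cn k := LinearMap.toContinuousLinearMap
    ((LinearMap.toContinuousLinearMap : (Cn k →ₗ[ℂ] Cn k) ≃ₗ[ℂ] _).toLinearMap ∘ₗ b2) with hb2c
  have hM1a : ∀ w z, M1c w z = M1 w z := fun w z => rfl
  have hb2a : ∀ w z, b2c w z = b2 w z := fun w z => rfl
  set LL : Vs m k →L[ℂ] Vs m k :=
    ((M1c (cx e)).comp (ContinuousLinearMap.fst ℂ (Cn m) (Cn k))).prod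
      ((2 : ℂ) • (b2c (cx e)).comp (ContinuousLinearMap.snd ℂ (Cn m) (Cn k))) with hLL
  set EE : Vs m k →L[ℂ] Vs m k := sym0EE m k with hEE
  have hLLa : ∀ v : Vs m k, LL v = (M1 (cx e) v.1, (2 : ℂ) • b2 (cx e) v.2) := fun v => rfl
  have hEEa : ∀ v : Vs m k, EE v = (v.1, (2 : ℂ) • v.2) := fun v => rfl
  -- the transport of X
  have hAd : Cpl D (fun x : Vs m k => f2 M1 b2 x + (LL x + fm2 (m := m) (cx e) x)) := by
    have hA := g4 (0 : Cn m) (-e)
    have hAc := h2 (Vs m k) D hD.opn _ _ _ hA hX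
    refine hAc.congr fun x _ => ?_
    have e1 : (fun p : Vs m k => (p.1 + (0 : Cn m), p.2 + cx (-e) +
        (2 * Complex.I) • hf F p.1 (0 : Cn m) + Complex.I • hf F (0 : Cn m) (0 : Cn m))) =
        fun p : Vs m k => p + ((0, cx (-e)) : Vs m k) := by
      funext q
      refine Prod.ext rfl ?_
      show q.2 + cx (-e) + (2 * Complex.I) • hf F q.1 0 + Complex.I • hf F 0 0 = q.2 + cx (-e)
      rw [hfz, hfz, smul_zero, smul_zero, add_zero, add_zero]
    unfold Ad
    rw [e1, fderiv_add_const, fderiv_fun_id]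
    have e2 : ((x.1 - (0 : Cn m), x.2 - cx (-e) - (2 * Complex.I) • hf F x.1 (0 : Cn m) +
        Complex.I • hf F (0 : Cn m) (0 : Cn m)) : Vs m k) = (x.1, x.2 + cx e) := by
      refine Prod.ext (sub_zero _) ?_
      show x.2 - cx (-e) - (2 * Complex.I) • hf F x.1 0 + Complex.I • hf F 0 0 = x.2 + cx e
      rw [hfz, hfz, smul_zero, smul_zero, add_zero, sub_zero]
      ext j
      simp [cx]
    show f2 M1 b2 x + (LL x + fm2 (cx e) x) =
      f2 M1 b2 ((x.1 - (0 : Cn m), x.2 - cx (-e) - (2 * Complex.I) • hf F x.1 (0 : Cn m) +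
        Complex.I • hf F (0 : Cn m) (0 : Cn m)) : Vs m k)
    rw [e2, hLLa]
    refine Prod.ext ?_ ?_
    · show M1 x.2 x.1 + (M1 (cx e) x.1 + 0) = M1 (x.2 + cx e) x.1
      rw [LinearMap.map_add₂, add_zero]
    · show b2 x.2 x.2 + ((2 : ℂ) • b2 (cx e) x.2 + cx e) = b2 (x.2 + cx e) (x.2 + cx e)
      rw [LinearMap.map_add₂, map_add, map_add, hbe, hsym x.2 (cx e), two_smul]
      abel
  have hneg : ∀ Y : Vs m k → Vs m k, Cpl D Y → Cpl D (fun x => -Y x) := by
    intro Y hY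
    refine ((h3 (Vs m k) D hD Y hY).1 (-1)).congr fun x _ => ?_
    simp
  have hL : Cpl D (fun x : Vs m k => LL x) := by
    refine ((h3 (Vs m k) D hD _ hAd).2 _ ((h3 (Vs m k) D hD _ (hneg _ hX)).2 _
      (hneg _ (g1 e)))).congr fun x _ => ?_
    abel
  have hN : Cpl D (fun x : Vs m k => (LL - EE) x) := by
    refine ((h3 (Vs m k) D hD _ hL).2 _ (hneg _ g3)).congr fun x _ => ?_
    rw [ContinuousLinearMap.sub_apply, hEEa, sub_eq_add_neg]
  have hNp : (LL - EE) p = 0 := by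
    rw [ContinuousLinearMap.sub_apply, hLLa, hEEa]
    refine Prod.ext ?_ ?_
    · show M1 (cx e) 0 - 0 = 0
      rw [map_zero, sub_zero]
    · show (2 : ℂ) • b2 (cx e) (Complex.I • cx e) - (2 : ℂ) • (Complex.I • cx e) = 0
      rw [map_smul, hbe, sub_self]
  -- the field Theta
  have hT : Cpl D (fun x : Vs m k => fm2 (m := m) (cx e) x + f2 M1 b2 x) :=
    (h3 (Vs m k) D hD _ (g1 e)).2 _ hX
  have hTp : fm2 (m := m) (cx e) p + f2 M1 b2 p = 0 := by
    refine Prod.ext ?_ ?_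
    · show (0 : Cn m) + M1 (Complex.I • cx e) 0 = 0
      rw [map_zero, zero_add]
    · show cx e + b2 (Complex.I • cx e) (Complex.I • cx e) = 0
      rw [LinearMap.map_smul₂, map_smul, hbe, smul_smul, Complex.I_mul_I, neg_smul,
        one_smul, add_neg_cancel]
  have hTd : fderiv ℂ (fun x : Vs m k => fm2 (m := m) (cx e) x + f2 M1 b2 x) p =
      Complex.I • LL := by
    have a1 : HasFDerivAt (fun x : Vs m k => M1c x.2 x.1)
        ((M1c p.2).comp (ContinuousLinearMap.fst ℂ (Cn m) (Cn k)) +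
          (M1c.comp (ContinuousLinearMap.snd ℂ (Cn m) (Cn k))).flip p.1) p :=
      (M1c.hasFDerivAt.comp p hasFDerivAt_snd).clm_apply hasFDerivAt_fst
    have a2 : HasFDerivAt (fun x : Vs m k => b2c x.2 x.2)
        ((b2c p.2).comp (ContinuousLinearMap.snd ℂ (Cn m) (Cn k)) +
          (b2c.comp (ContinuousLinearMap.snd ℂ (Cn m) (Cn k))).flip p.2) p :=
      (b2c.hasFDerivAt.comp p hasFDerivAt_snd).clm_apply hasFDerivAt_snd
    have a3 := (a1.prodMk a2).const_add ((0, cx e) : Vs m k)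
    have a4 : (fun x : Vs m k => fm2 (m := m) (cx e) x + f2 M1 b2 x) =
        fun x : Vs m k => ((0, cx e) : Vs m k) + (M1c x.2 x.1, b2c x.2 x.2) := rfl
    rw [a4, a3.fderiv]
    refine ContinuousLinearMap.ext fun v => ?_
    refine Prod.ext ?_ ?_
    · show M1 (Complex.I • cx e) v.1 + M1 v.2 0 = Complex.I • M1 (cx e) v.1
      rw [map_zero, add_zero, LinearMap.map_smul₂]
    · show b2 (Complex.I • cx e) v.2 + b2 v.2 (Complex.I • cx e) =
        Complex.I • ((2 : ℂ) • b2 (cx e) v.2)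
      rw [hsym v.2, LinearMap.map_smul₂, two_smul, smul_add]
  obtain ⟨hTdif, φ, hφ⟩ := hT
  obtain ⟨i1, i2, M, hM⟩ := h4 (Vs m k) D hD _ φ hTdif hφ p hpD hTp
  rw [hTd] at i2 hM
  obtain ⟨hNdif, ψ, hψ⟩ := hN
  obtain ⟨_, _, M', hM'⟩ := h4 (Vs m k) D hD _ ψ hNdif hψ p hpD hNp
  have hNd : fderiv ℂ (fun x : Vs m k => (LL - EE) x) p = LL - EE := (LL - EE).fderiv
  rw [hNd] at hM'
  have hcom : LL * EE = EE * LL := by
    refine ContinuousLinearMap.ext fun v => ?_
    refine Prod.ext rfl ?_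
    show (2 : ℂ) • b2 (cx e) ((2 : ℂ) • v.2) = (2 : ℂ) • ((2 : ℂ) • b2 (cx e) v.2)
    rw [map_smul]
  have hz : LL - EE = 0 := by
    refine (h5 (Vs m k)).1 (LL - EE) ⟨M', hM'⟩ ⟨M, fun t => ?_⟩
    exact sym0_norm LL EE hcom t M (hM t) (sym0_bdd t)
  have hLE : LL = EE := sub_eq_zero.1 hz
  -- the symmetry
  have hjD : ∀ x ∈ D, ((Complex.I • x.1, x.2) : Vs m k) ∈ D := fun x hx => g5.mg hx
  have hjp : ((Complex.I • p.1, p.2) : Vs m k) = p := by
    refine Prod.ext ?_ rfl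
    show Complex.I • (0 : Cn m) = 0
    rw [smul_zero]
  set t0 : ℝ := Real.pi / 2 with ht0
  set s : Vs m k → Vs m k := fun x => φ t0 ((Complex.I • x.1, x.2) : Vs m k) with hs
  have hsdif : DifferentiableOn ℂ s D := (hφ.dif t0).comp g5.dg g5.mg
  have hsmaps : MapsTo s D D := fun x hx => hφ.maps t0 (g5.mg hx)
  have hsp : s p = p := by
    show φ t0 ((Complex.I • p.1, p.2) : Vs m k) = p
    rw [hjp, i1 t0]
  have hj : HasFDerivAt (fun x : Vs m k => ((Complex.I • x.1, x.2) : Vs m k))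
      ((Complex.I • ContinuousLinearMap.fst ℂ (Cn m) (Cn k)).prod
        (ContinuousLinearMap.snd ℂ (Cn m) (Cn k))) p :=
    (hasFDerivAt_fst.const_smul Complex.I).prodMk hasFDerivAt_snd
  have hφd : HasFDerivAt (φ t0) (NormedSpace.exp ((t0 : ℂ) • (Complex.I • LL)))
      ((Complex.I • p.1, p.2) : Vs m k) := by
    rw [hjp, ← i2 t0]
    exact ((hφ.dif t0).differentiableAt (hD.opn.mem_nhds hpD)).hasFDerivAt
  have hsd : HasFDerivAt s (-ContinuousLinearMap.id ℂ (Vs m k)) p := by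
    have a1 := hφd.comp p hj
    have a2 : (NormedSpace.exp ((t0 : ℂ) • (Complex.I • LL))).comp
        ((Complex.I • ContinuousLinearMap.fst ℂ (Cn m) (Cn k)).prod
        (ContinuousLinearMap.snd ℂ (Cn m) (Cn k))) = -ContinuousLinearMap.id ℂ (Vs m k) := by
      refine ContinuousLinearMap.ext fun v => ?_
      show NormedSpace.exp ((t0 : ℂ) • (Complex.I • LL)) ((Complex.I • v.1, v.2) : Vs m k) = -v
      rw [hLE, smul_smul, hEE, sym0_exp]
      have b1 : Complex.exp ((t0 : ℂ) * Complex.I) = Complex.I := by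
        rw [ht0]
        push_cast
        exact Complex.exp_pi_div_two_mul_I
      have b2' : Complex.exp (2 * ((t0 : ℂ) * Complex.I)) = -1 := by
        rw [two_mul, Complex.exp_add, b1, Complex.I_mul_I]
      rw [b1, b2']
      refine Prod.ext ?_ ?_
      · show Complex.I • (Complex.I • v.1) = -v.1
        rw [smul_smul, Complex.I_mul_I, neg_smul, one_smul]
      · show (-1 : ℂ) • v.2 = -v.2
        rw [neg_smul, one_smul]
    rw [a2] at a1
    exact a1
  refine ⟨s, hsdif, hsmaps, ?_, hsp, hsd.fderiv⟩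
  refine h6 (Vs m k) D hD (fun x => s (s x)) (hsdif.comp hsdif hsmaps)
    (fun x hx => hsmaps (hsmaps hx)) p hpD ?_ ?_
  · show s (s p) = p
    rw [hsp, hsp]
  · have a1 : HasFDerivAt s (-ContinuousLinearMap.id ℂ (Vs m k)) (s p) := by
      rw [hsp]
      exact hsd
    have a2 := a1.comp p hsd
    have a3 : (-ContinuousLinearMap.id ℂ (Vs m k)).comp (-ContinuousLinearMap.id ℂ (Vs m k)) =
        ContinuousLinearMap.id ℂ (Vs m k) := by
      refine ContinuousLinearMap.ext fun v => ?_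
      show -(-v) = v
      exact neg_neg v
    rw [a3] at a2
    exact a2.fderiv

end KVB
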