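import Pool.Agent.Lib.KV.B.SpecE

/-!
# KV (MP_64edc4_ag), part B, block E, module SymD: symmetries at all points
-/

set_option autoImplicit false

open Set Filter Topology Metric

namespace KVB

open KP

private theorem symD_aut {V : Type} [NormedAddCommGroup V] [NormedSpace ℂ V] {D : Set V}
    (hD : IsOpen D) {g h : V → V} (hg : Aut2 D g h) {q : V} (hq : q ∈ D) (hs : SPt D q) :
    SPt D (g q) := by
  obtain ⟨s, s1, s2, s3, s4, s5⟩ := hs
  have hp : g q ∈ D := hg.mg hq
  have hhp : h (g q) = q := hg.hg q hq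
  refine ⟨fun x => g (s (h x)), ?_, ?_, ?_, ?_, ?_⟩
  · exact hg.dg.comp (s1.comp hg.dh hg.mh) fun x hx => s2 (hg.mh hx)
  · intro x hx
    exact hg.mg (s2 (hg.mh hx))
  · intro x hx
    show g (s (h (g (s (h x))))) = x
    rw [hg.hg _ (s2 (hg.mh hx)), s3 _ (hg.mh hx), hg.gh x hx]
  · show g (s (h (g q))) = g q
    rw [hhp, s4]
  · have d1 : HasFDerivAt h (fderiv ℂ h (g q)) (g q) :=
      (hg.dh.differentiableAt (hD.mem_nhds hp)).hasFDerivAt
    have d2 : HasFDerivAt s (-ContinuousLinearMap.id ℂ V) (h (g q)) := by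
      rw [hhp, ← s5]
      exact (s1.differentiableAt (hD.mem_nhds hq)).hasFDerivAt
    have d3 : HasFDerivAt g (fderiv ℂ g q) (s (h (g q))) := by
      rw [hhp, s4]
      exact (hg.dg.differentiableAt (hD.mem_nhds hq)).hasFDerivAt
    have d4 : HasFDerivAt (fun x => g (s (h x)))
        ((fderiv ℂ g q).comp ((-ContinuousLinearMap.id ℂ V).comp (fderiv ℂ h (g q)))) (g q) :=
      d3.comp (g q) (d2.comp (g q) d1)
    have d3' : HasFDerivAt g (fderiv ℂ g q) (h (g q)) := by
      rw [hhp]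
      exact (hg.dg.differentiableAt (hD.mem_nhds hq)).hasFDerivAt
    have d5 : HasFDerivAt (fun x => g (h x)) ((fderiv ℂ g q).comp (fderiv ℂ h (g q))) (g q) :=
      d3'.comp (g q) d1
    have d6 : HasFDerivAt (fun x => g (h x)) (ContinuousLinearMap.id ℂ V) (g q) := by
      refine (hasFDerivAt_id (g q)).congr_of_eventuallyEq ?_
      filter_upwards [hD.mem_nhds hp] with x hx
      exact hg.gh x hx
    have d7 := d5.unique d6
    rw [d4.fderiv]
    ext v
    have d8 := congrArg (fun L : V →L[ℂ] V => L v) d7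
    simp only [ContinuousLinearMap.comp_apply, ContinuousLinearMap.neg_apply,
      ContinuousLinearMap.id_apply, map_neg] at d8 ⊢
    rw [d8]

theorem tSymD (h1 : S_Sym0) (h2 : S_Hei) : S_SymD := by
  intro m k F Om hF hD he p hp
  obtain ⟨z0, w0⟩ := p
  have hp' : imv w0 - rev (hf F z0 z0) ∈ Om := hp
  obtain ⟨M1, b2, hb1, hb2, hb3⟩ := he _ hp'
  have hs := h1 m k F Om hF hD _ hp' M1 b2 hb1 hb2 hb3
  have hA := (h2 m k F Om hF).2.2.2.1 z0 (rev w0)
  have hq : ((0, Complex.I • cx (imv w0 - rev (hf F z0 z0))) : Vs m k) ∈ SD F Om := by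
    show imv (Complex.I • cx (imv w0 - rev (hf F z0 z0))) - rev (hf F 0 0) ∈ Om
    have e1 : imv (Complex.I • cx (imv w0 - rev (hf F z0 z0))) - rev (hf F 0 0) =
        imv w0 - rev (hf F z0 z0) := by
      ext j
      simp [imv, rev, cx, hf]
    rw [e1]
    exact hp'
  have h3 := symD_aut hD.opn hA hq hs
  have h4 : (((0, Complex.I • cx (imv w0 - rev (hf F z0 z0))) : Vs m k).1 + z0,
      ((0, Complex.I • cx (imv w0 - rev (hf F z0 z0))) : Vs m k).2 + cx (rev w0) +
        (2 * Complex.I) • hf F ((0, Complex.I • cx (imv w0 - rev (hf F z0 z0))) : Vs m k).1 z0 +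
        Complex.I • hf F z0 z0) = (z0, w0) := by
    refine Prod.ext (zero_add _) ?_
    have e2 : hf F (0 : Cn m) z0 = 0 := by
      ext j
      simp [hf]
    show Complex.I • cx (imv w0 - rev (hf F z0 z0)) + cx (rev w0) +
        (2 * Complex.I) • hf F 0 z0 + Complex.I • hf F z0 z0 = w0
    rw [e2, smul_zero, add_zero]
    have e3 : hf F z0 z0 = cx (rev (hf F z0 z0)) := (hf_self hF z0).symm
    ext j
    have e4 : hf F z0 z0 j = ((rev (hf F z0 z0) j : ℝ) : ℂ) := congrFun e3 j
    simp only [Pi.add_apply, Pi.smul_apply, smul_eq_mul, cx, Pi.sub_apply]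
    rw [e4]
    simp only [imv, rev, Complex.ofReal_sub]
    have e5 := Complex.re_add_im (w0 j)
    linear_combination e5
  rw [← h4]
  exact h3

end KVB
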