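import Pool.Agent.Lib.KV.B.SpecE

/-!
# KV (MP_64edc4_ag), part B, block E: transport of the group action (task TrA)
-/

set_option autoImplicit false

open Set Filter Topology Metric

namespace KVB

open KP

namespace TrAAux

variable {m k : ℕ}

private theorem toV_ofV (v : Vs m k) : toV (ofV v) = v := by
  apply Prod.ext
  · ext i; simp [toV, ofV]
  · ext i; simp [toV, ofV]

private theorem ofV_toV (p : Cn (m + k)) : ofV (toV p) = p := by
  ext i
  refine Fin.addCases (fun i => ?_) (fun i => ?_) i <;> simp [toV, ofV]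

private theorem differentiable_toV : Differentiable ℂ (toV : Cn (m + k) → Vs m k) :=
  Differentiable.prodMk (differentiable_pi.2 fun _ => differentiable_apply _)
    (differentiable_pi.2 fun _ => differentiable_apply _)

private theorem differentiable_ofV : Differentiable ℂ (ofV : Vs m k → Cn (m + k)) := by
  refine differentiable_pi.2 fun i => ?_
  refine Fin.addCases (fun i => ?_) (fun i => ?_) i
  · simp only [ofV, Fin.append_left]
    exact (differentiable_apply i).comp (differentiable_fst (𝕜 := ℂ) (E := Cn m) (F := Cn k))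
  · simp only [ofV, Fin.append_right]
    exact (differentiable_apply i).comp (differentiable_snd (𝕜 := ℂ) (E := Cn m) (F := Cn k))

/-- The abstract transport. -/
private theorem transport {N : ℕ} {V : Type} [NormedAddCommGroup V] [NormedSpace ℂ V]
    [ProperSpace V] (D : Set V) (hD : IsOpen D) (U : Set (Cn N)) (E : V → Cn N)
    (E' : Cn N → V) (hE : ∀ v ∈ D, E v ∈ U) (hE' : ∀ u ∈ U, E' u ∈ D)
    (hEE : ∀ v ∈ D, E' (E v) = v) (hEE' : ∀ u ∈ U, E (E' u) = u) (cE : ContinuousOn E D)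
    (cE' : ContinuousOn E' U) (Γ : Type) [Group Γ] [MulAction Γ U] (Fg : Γ → Cn N → Cn N)
    (hFg : ∀ (γ : Γ) (u : U), Fg γ u = ((γ • u : U) : Cn N)) (hFc : ∀ γ, ContinuousOn (Fg γ) U)
    (hd : ∀ γ, DifferentiableOn ℂ (fun v => E' (Fg γ (E v))) D)
    (hpd : ∀ K : Set U, IsCompact K → {γ : Γ | ((fun u : U => γ • u) '' K ∩ K).Nonempty}.Finite)
    (hcc : CompactSpace (Quotient (MulAction.orbitRel Γ U))) :
    GAct D (fun (γ : Γ) v => E' (Fg γ (E v))) := by
  classical
  have hFU : ∀ γ, ∀ u ∈ U, Fg γ u ∈ U := fun γ u hu => by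
    have := hFg γ ⟨u, hu⟩
    simp only at this
    rw [this]
    exact Subtype.coe_prop _
  have hFU' : ∀ γ (u : Cn N) (hu : u ∈ U), Fg γ u = ((γ • (⟨u, hu⟩ : U) : U) : Cn N) :=
    fun γ u hu => hFg γ ⟨u, hu⟩
  refine ⟨hd, fun γ v hv => hE' _ (hFU γ _ (hE v hv)), fun v hv => ?_, fun γ γ' v hv => ?_, ?_, ?_⟩
  · -- one
    rw [hFU' 1 (E v) (hE v hv), one_smul]
    exact hEE v hv
  · -- mul
    rw [hEE' _ (hFU γ' _ (hE v hv)), hFU' (γ * γ') (E v) (hE v hv), mul_smul]
    congr 1
    have h1 : Fg γ' (E v) = ((γ' • (⟨E v, hE v hv⟩ : U) : U) : Cn N) := hFU' γ' (E v) (hE v hv)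
    rw [h1, hFg γ]
  · -- properly discontinuous
    intro Q hQD hQ
    have hK : IsCompact ((Subtype.val : U → Cn N) ⁻¹' (E '' Q)) := by
      rw [Subtype.isCompact_iff, Subtype.image_preimage_coe]
      have h1 : U ∩ E '' Q = E '' Q := by
        apply inter_eq_self_of_subset_right
        rintro _ ⟨v, hv, rfl⟩
        exact hE v (hQD hv)
      rw [h1]
      exact hQ.image_of_continuousOn (cE.mono hQD)
    refine (hpd _ hK).subset ?_
    rintro γ ⟨w, ⟨v, hv, hvw⟩, hw⟩
    have hvD := hQD hv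
    refine ⟨γ • (⟨E v, hE v hvD⟩ : U), ⟨⟨E v, hE v hvD⟩, ⟨v, hv, rfl⟩, rfl⟩, ?_⟩
    rw [mem_preimage, ← hFU' γ (E v) (hE v hvD)]
    refine ⟨w, hw, ?_⟩
    rw [← hvw]
    exact hEE' _ (hFU γ _ (hE v hvD))
  · -- cocompact
    have hcs : ContinuousConstSMul Γ U := by
      refine ⟨fun γ => ?_⟩
      refine Continuous.subtype_mk (f := fun u : U => ((γ • u : U) : Cn N)) ?_ _
      have h1 : (fun u : U => ((γ • u : U) : Cn N)) = fun u : U => Fg γ u := by
        ext1 u; rw [hFg]
      rw [h1]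
      exact continuousOn_iff_continuous_domRestrict.1 (hFc γ)
    have hball : ∀ v : D, ∃ r > 0, closedBall (v : V) r ⊆ D := fun v =>
      Metric.nhds_basis_closedBall.mem_iff.1 (hD.mem_nhds v.2)
    choose r hr hrD using hball
    let π : U → Quotient (MulAction.orbitRel Γ U) := Quotient.mk _
    have hπ : IsOpenMap π := isOpenMap_quotient_mk'_mul
    have hcE' : Continuous (fun u : U => E' u) := continuousOn_iff_continuous_domRestrict.1 cE'
    let W : D → Set (Quotient (MulAction.orbitRel Γ U)) := fun v =>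
      π '' ((fun u : U => E' u) ⁻¹' ball (v : V) (r v))
    have hWo : ∀ v, IsOpen (W v) := fun v => hπ _ (isOpen_ball.preimage hcE')
    have hcov : (univ : Set (Quotient (MulAction.orbitRel Γ U))) ⊆ ⋃ v, W v := by
      intro q _
      obtain ⟨u, rfl⟩ := Quotient.exists_rep q
      refine mem_iUnion.2 ⟨⟨E' u, hE' u u.2⟩, u, ?_, rfl⟩
      exact mem_ball_self (hr _)
    obtain ⟨t, ht⟩ := isCompact_univ.elim_finite_subcover W hWo hcov
    refine ⟨⋃ v ∈ t, closedBall (v : V) (r v), iUnion₂_subset fun v _ => hrD v,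
      t.finite_toSet.isCompact_biUnion fun v _ => isCompact_closedBall _ _, fun x hx => ?_⟩
    have hq : π ⟨E x, hE x hx⟩ ∈ ⋃ v ∈ t, W v := ht (mem_univ _)
    obtain ⟨v, hv⟩ := mem_iUnion.1 hq
    obtain ⟨hvt, u, hu, huq⟩ := mem_iUnion.1 hv
    have h1 : (MulAction.orbitRel Γ U).r u ⟨E x, hE x hx⟩ := Quotient.exact huq
    obtain ⟨γ, hγ⟩ := h1
    refine ⟨γ, mem_iUnion₂.2 ⟨v, hvt, ball_subset_closedBall ?_⟩⟩
    dsimp only at hγ ⊢
    rw [hFU' γ (E x) (hE x hx), hγ]
    exact hu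

end TrAAux

open TrAAux in
theorem tTrA (h1 : S_Cay) : S_TrA := by
  intro N m k F Om U hS hB Γ _ _ hhol hpd hcc
  obtain ⟨hD, -⟩ := h1 m k F Om hS
  obtain ⟨f, g, hf, hg, hfm, hgm, hgf, hfg⟩ := hB
  choose Fg hFh hFg using hhol
  have hSDn : SDn F Om = (toV : Cn (m + k) → Vs m k) ⁻¹' SD F Om := rfl
  have hmem : ∀ v ∈ SD F Om, ofV v ∈ SDn F Om := fun v hv => by
    rw [hSDn, mem_preimage, toV_ofV]; exact hv
  have hSo : IsOpen (SDn F Om) := by
    rw [hSDn]
    exact hD.preimage differentiable_toV.continuous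
  have hFU : ∀ γ, MapsTo (Fg γ) U U := fun γ u hu => by
    have := hFg γ ⟨u, hu⟩
    simp only at this
    rw [this]
    exact Subtype.coe_prop _
  refine ⟨fun γ v => toV (f (Fg γ (g (ofV v)))), ?_⟩
  refine transport (SD F Om) hD U (fun v => g (ofV v)) (fun u => toV (f u))
    (fun v hv => hgm (hmem v hv)) (fun u hu => hfm hu) (fun v hv => ?_) (fun u hu => ?_) ?_ ?_ Γ Fg
    hFg (fun γ => (hFh γ).continuousOn) (fun γ => ?_) hpd hcc
  · rw [hfg _ (hmem v hv), toV_ofV]
  · rw [ofV_toV, hgf u hu]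
  · exact hg.continuousOn.comp differentiable_ofV.continuous.continuousOn fun v hv => hmem v hv
  · exact differentiable_toV.continuous.comp_continuousOn hf.continuousOn
  · have h2 : HolOn (fun p => f (Fg γ (g p))) (SDn F Om) :=
      hf.comp ((hFh γ).comp hg hgm) fun p hp => hFU γ (hgm hp)
    have h3 : DifferentiableOn ℂ (fun p => f (Fg γ (g p))) (SDn F Om) := (holOn_iff hSo).1 h2
    have h4 : DifferentiableOn ℂ (fun v : Vs m k => f (Fg γ (g (ofV v)))) (SD F Om) :=
      h3.comp differentiable_ofV.differentiableOn fun v hv => hmem v hv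
    exact differentiable_toV.comp_differentiableOn h4

end KVB
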